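import Mathlib
import Pool.Agent.Work.MP_56c4bc_an.Final

/-! # A proper transitive algebra containing the bilateral shift

On `L²(𝕋)` let `Θ : 𝕋 → SU(2)` be the limit of the products `ψ_n ⋯ ψ_1`, where
`ψ_m(z) = sgn(a_m(w)) [[a_m(w), -conj b_m(w)], [b_m(w), a_m(w)]]`, `w = z^{N_m}`, with a real
trigonometric polynomial `a_m` close to a square wave with values `±1` and
`|b_m|² = 1 - a_m²`. The algebra of the operators `T` such that `T ⊕ T` maps `Θ H²(ℂ²)` into
itself is closed in the weak operator topology, contains the multiplication by `z` but not its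
inverse, and is transitive. -/

namespace Pool.Agent.Results.MP_56c4bc_an.ProperTransitive

/-- The unital algebra `A` of bounded operators is closed in the weak operator topology, and its
only closed invariant subspaces are `{0}` and the whole space. -/
def IsTransitive {H : Type} [NormedAddCommGroup H] [InnerProductSpace ℂ H]
    (A : Subalgebra ℂ (H →L[ℂ] H)) : Prop :=
  IsClosed {T : H →WOT[ℂ] H | T.toCLM ∈ A} ∧
  ∀ K : Submodule ℂ H, IsClosed (K : Set H) → (∀ T ∈ A, ∀ x ∈ K, T x ∈ K) → K = ⊥ ∨ K = ⊤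

/-- Let `H` be a complex Hilbert space with an orthonormal basis `(b n)` indexed by `ℤ` (such as
`ℓ²(ℤ)`). The bilateral shift, the unitary with `U (b n) = b (n + 1)`, exists, and every bounded
operator `U` with `U (b n) = b (n + 1)` lies in a unital subalgebra `A ≠ B(H)` which is closed in
the weak operator topology and has no closed invariant subspaces except `{0}` and `H`. -/
theorem result (H : Type) [NormedAddCommGroup H] [InnerProductSpace ℂ H] [CompleteSpace H]
    (b : HilbertBasis ℤ ℂ H) :
    (∃ U : H ≃ₗᵢ[ℂ] H, ∀ n : ℤ, U (b n) = b (n + 1)) ∧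
    ∀ U : H →L[ℂ] H, (∀ n : ℤ, U (b n) = b (n + 1)) →
      ∃ A : Subalgebra ℂ (H →L[ℂ] H), IsTransitive A ∧ U ∈ A ∧ A ≠ ⊤ := by
  refine ⟨TransAlg.shift_exists b, fun U hU => ?_⟩
  obtain ⟨A, h1, h2, h3, h4⟩ := TransAlg.goal_of_basis b U hU
  exact ⟨A, ⟨h1, h3⟩, h2, h4⟩

end Pool.Agent.Results.MP_56c4bc_an.ProperTransitive
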